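import Mathlib

set_option autoImplicit false

namespace Pool.Agent.Results.MP_e74e46_co.Four

open Finset

/-- `A g` is the agent who receives good `g`; envy-freeness up to one good for the profile `w` -/
def EF1 {n m : ℕ} (w : Fin n → Fin m → ℝ) (A : Fin m → Fin n) : Prop :=
  ∀ i j, (∀ g, A g ≠ j) ∨ ∃ g, A g = j ∧ ∑ x with A x = j ∧ x ≠ g, w i x ≤ ∑ x with A x = i, w i x

/-- Pareto optimality -/
def PO {n m : ℕ} (u : Fin n → Fin m → ℝ) (A : Fin m → Fin n) : Prop :=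
  ¬ ∃ B : Fin m → Fin n, (∀ i, ∑ x with A x = i, u i x ≤ ∑ x with B x = i, u i x) ∧
    ∃ i, ∑ x with A x = i, u i x < ∑ x with B x = i, u i x

theorem result : ∃ (n m : ℕ) (u : Fin n → Fin m → ℝ) (v : Fin m → ℝ), 2 ≤ n ∧ (∀ i g, 0 < u i g) ∧
    (∀ g, 0 < v g) ∧ ¬ ∃ A : Fin m → Fin n, EF1 u A ∧ PO u A ∧ EF1 (fun _ => v) A := by
  refine ⟨2, 4, fun i g => ((![![3, 3, 2, 2], ![2, 2, 3, 3]] i g : ℕ) : ℝ),
    fun g => ((![3, 3, 1, 1] g : ℕ) : ℝ), le_rfl, ?_, ?_, ?_⟩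
  · simp only [Nat.cast_pos]; decide
  · simp only [Nat.cast_pos]; decide
  · simp only [EF1, PO, ← Nat.cast_sum, Nat.cast_le, Nat.cast_lt]
    decide +kernel

end Pool.Agent.Results.MP_e74e46_co.Four
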